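import Mathlib
import Pool.Agent.TH142.PN.Mdl
import Pool.Agent.TH91.LG.Asm

set_option autoImplicit false

namespace Pool.Agent.TH554.PN

open Topology Filter Pool.Agent.TH142.PN Pool.Agent.TH91.LG
open scoped ContDiff Manifold

section aux

open Pool.Agent.TH91.LG.J1261 Pool.Agent.TH91.RF Pool.Agent.TH91.NB

theorem mdl_of_facts {G : Type*} [Group G] [TopologicalSpace G] [IsTopologicalGroup G]
    {E : Type*} [NormedAddCommGroup E] [NormedSpace ℝ E] [FiniteDimensional ℝ E] (L : LieStr G E)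
    (g : G)
    (hconj : ∀ (g : G) (X : E) (t : ℝ), g * L.c X t * g⁻¹ = L.c (L.Ad g X) t)
    (hsmul : ∀ (a : ℝ) (X : E) (t : ℝ), L.c (a • X) t = L.c X (a * t))
    (D : Module.End ℝ E) (hDn : IsNilpotent D) (hD : fexp D = L.Ad g)
    {N : ℕ} (R : NilRepD L.ad D N)
    (hcl : ∀ X Y : E, ∃ Z : E, IsNilpotent.exp (R.ρ X) * IsNilpotent.exp (R.ρ Y) =
      IsNilpotent.exp (R.ρ Z))
    (hhom : ∀ X Y Z : E, IsNilpotent.exp (R.ρ X) * IsNilpotent.exp (R.ρ Y) =
      IsNilpotent.exp (R.ρ Z) → L.c X 1 * L.c Y 1 = L.c Z 1)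
    (hcont : Continuous (fun X => L.c X 1)) : Nonempty (Mdl G g N) := by
  set Φ := Pool.Agent.TH91.NB.J887.matFiltR N with hΦ
  obtain ⟨σ, hσ⟩ := R.ρ.exists_leftInverse_of_injective (LinearMap.ker_eq_bot.2 R.inj)
  have hσ' : ∀ x, σ (R.ρ x) = x := fun x => by
    rw [← LinearMap.comp_apply, hσ, LinearMap.id_apply]
  have hσc : Continuous σ := LinearMap.continuous_of_finiteDimensional σ
  have hρσ : ∀ x ∈ LinearMap.range R.ρ, R.ρ (σ x) = x := by
    rintro x ⟨a, rfl⟩
    rw [hσ']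
  have hρc : Continuous R.ρ := LinearMap.continuous_of_finiteDimensional R.ρ
  have hc0 : ∀ X, L.c X 0 = 1 := by
    intro X
    have h := L.c_add X 0 0
    rw [add_zero] at h
    exact left_eq_mul.1 h
  have hc1 : L.c 0 1 = 1 := by
    have h := hsmul 0 0 1
    rw [zero_smul, zero_mul, hc0] at h
    exact h
  -- products
  have hprod : ∀ l : List E, ∃ Z : E, (l.map fun X => IsNilpotent.exp (R.ρ X)).prod =
      IsNilpotent.exp (R.ρ Z) ∧ (l.map fun X => L.c X 1).prod = L.c Z 1 := by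
    intro l
    induction l with
    | nil => exact ⟨0, by rw [map_zero, IsNilpotent.exp_zero]; rfl, by rw [hc1]; rfl⟩
    | cons a l ih =>
      obtain ⟨Z, h1, h2⟩ := ih
      obtain ⟨Z', h3⟩ := hcl a Z
      refine ⟨Z', ?_, ?_⟩
      · rw [List.map_cons, List.prod_cons, h1, h3]
      · rw [List.map_cons, List.prod_cons, h2, hhom a Z Z' h3]
  refine ⟨{
    V := LinearMap.range R.ρ
    M := R.M
    supV := ?_
    supM := R.supM
    brV := ?_
    brM := ?_
    ψ := fun x => L.c (σ (x : Matrix (Fin N) (Fin N) ℝ)) 1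
    hom := ?_
    cont := ?_
    opn := ?_
    conj := ?_ }⟩
  · rintro x ⟨a, rfl⟩
    exact R.sup a
  · rintro x ⟨a, rfl⟩ y ⟨b, rfl⟩
    exact ⟨L.ad a b, R.br a b⟩
  · rintro x ⟨a, rfl⟩
    exact ⟨D a, R.der a⟩
  · intro x y z h
    apply hhom
    rw [hρσ _ x.2, hρσ _ y.2, hρσ _ z.2]
    exact h
  · exact hcont.comp (hσc.comp continuous_subtype_val)
  · intro W hW
    let b := Module.finBasis ℝ E
    let F : (Fin (Module.finrank ℝ E) → ℝ) → Matrix (Fin N) (Fin N) ℝ :=
      fun t => ((List.finRange (Module.finrank ℝ E)).map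
          (fun i => J887.Ex N (R.ρ (t i • b i)))).prod
    have hF : Continuous F :=
      continuous_list_prod _ fun i _ => J887.Ex_continuous.comp (hρc.comp
        ((continuous_apply i).smul continuous_const))
    have hEx : ∀ X, J887.Ex N (R.ρ X) = IsNilpotent.exp (R.ρ X) := by
      intro X
      rw [Φ.exp_eq (rho_mem R X)]
      rfl
    have hXt : ∀ t : Fin (Module.finrank ℝ E) → ℝ, ∃ Z : E, F t = IsNilpotent.exp (R.ρ Z) ∧
        (List.ofFn fun i => L.c (b i) (t i)).prod = L.c Z 1 := by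
      intro t
      obtain ⟨Z, h1, h2⟩ := hprod ((List.finRange (Module.finrank ℝ E)).map fun i => t i • b i)
      refine ⟨Z, ?_, ?_⟩
      · rw [← h1, List.map_map]
        change (List.map _ _).prod = _
        congr 1
        refine List.map_congr_left fun i _ => ?_
        exact hEx _
      · rw [← h2, List.map_map, List.ofFn_eq_map]
        congr 1
        refine List.map_congr_left fun i _ => ?_
        change L.c (b i) (t i) = L.c (t i • b i) 1
        rw [hsmul, mul_one]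
    let Y : (Fin (Module.finrank ℝ E) → ℝ) → LinearMap.range R.ρ :=
      fun t => ⟨R.ρ (σ (J887.Lg N N (F t))), _, rfl⟩
    have hY : Continuous Y :=
      (hρc.comp (hσc.comp ((J887.Lg_continuous N).comp hF))).subtype_mk _
    have hYt : ∀ t (Z : E), F t = IsNilpotent.exp (R.ρ Z) →
        (Y t : Matrix (Fin N) (Fin N) ℝ) = R.ρ Z := by
      intro t Z h
      change R.ρ (σ (J887.Lg N N (F t))) = _
      rw [h, J887.Lg_exp (rho_mem R Z), hσ']
    have hF0 : F 0 = IsNilpotent.exp (R.ρ 0) := by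
      change (List.map _ _).prod = _
      rw [map_zero, IsNilpotent.exp_zero]
      apply List.prod_eq_one
      intro x hx
      rw [List.mem_map] at hx
      obtain ⟨i, _, rfl⟩ := hx
      rw [Pi.zero_apply, zero_smul, hEx, map_zero, IsNilpotent.exp_zero]
    have hY0 : Y 0 = 0 := by
      apply Subtype.ext
      rw [hYt 0 0 hF0, map_zero]
      rfl
    have h2 : Y ⁻¹' W ∈ 𝓝 (0 : Fin (Module.finrank ℝ E) → ℝ) := by
      apply hY.continuousAt
      rw [hY0]
      exact hW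
    obtain ⟨δ, hδ, hball⟩ := Metric.mem_nhds_iff.1 h2
    refine mem_of_superset (L.open_prod (fun i => b i) b.span_eq δ hδ) ?_
    rintro _ ⟨t, ht, rfl⟩
    have h3 : t ∈ Metric.ball (0 : Fin (Module.finrank ℝ E) → ℝ) δ := by
      rw [Metric.mem_ball, dist_pi_lt_iff hδ]
      intro i
      rw [Pi.zero_apply, Real.dist_eq, sub_zero]
      exact ht i
    obtain ⟨Z, h4, h5⟩ := hXt t
    refine ⟨Y t, hball h3, ?_⟩
    change L.c (σ (Y t : Matrix (Fin N) (Fin N) ℝ)) 1 = _
    rw [hYt t Z h4, hσ', h5]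
  · intro x y h
    have h1 : IsNilpotent.exp R.M * IsNilpotent.exp (R.ρ (σ (x : Matrix (Fin N) (Fin N) ℝ))) *
        IsNilpotent.exp (-R.M) =
        IsNilpotent.exp (R.ρ (fexp D (σ (x : Matrix (Fin N) (Fin N) ℝ)))) := by
      have := congrArg Units.val (conj_exp R hDn (σ (x : Matrix (Fin N) (Fin N) ℝ)))
      rw [Units.val_mul, Units.val_mul, ue_val, ue_val, ue_val, ue_inv_val] at this
      exact this
    rw [hρσ _ x.2, h] at h1
    have h2 : (y : Matrix (Fin N) (Fin N) ℝ) =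
        R.ρ (fexp D (σ (x : Matrix (Fin N) (Fin N) ℝ))) := by
      refine Φ.exp_inj ?_ (rho_mem R _) h1
      obtain ⟨b, hb⟩ := y.2
      rw [← hb]
      exact rho_mem R b
    change g * L.c _ 1 * g⁻¹ = L.c _ 1
    rw [h2, hσ', hD, hconj]

end aux

/-- every element of a nilpotent Lie group has a unipotent model -/
theorem exists_mdl {E : Type} [NormedAddCommGroup E] [NormedSpace ℝ E] [FiniteDimensional ℝ E]
    {G : Type} [Group G] [TopologicalSpace G] [ChartedSpace E G]
    [LieGroup (modelWithCornersSelf ℝ E) ((⊤ : ℕ∞) : WithTop ℕ∞) G] [Group.IsNilpotent G]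
    (g : G) : ∃ N : ℕ, Nonempty (Mdl G g N) := by
  have htop : IsTopologicalGroup G := topologicalGroup_of_lieGroup 𝓘(ℝ, E) ∞
  obtain ⟨L0⟩ := Pool.Agent.TH959.J1254.exists_locLie E G
  obtain ⟨L⟩ := L0.exists_lieStr
  have hB : NilLie L.ad := L.nilLie
  obtain ⟨N0, ⟨R0⟩⟩ := exists_nilRep_univ E L.ad hB
  obtain ⟨D, hD1, hD2, hD3⟩ := Pool.Agent.TH558.J1262.log_aut L.ad (L.Ad g) (L.Ad_nil g)
    (fun x y => L.Ad_ad g x y)
  obtain ⟨N, ⟨R⟩⟩ := R0.extend hB D hD1 hD2
  have hf := hom_facts L (fun g X t => L.conj_c g X t) (fun a X t => L.c_smul a X t)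
    (fun X t => L.Ad_c X t) hB R.toNilRep
  exact ⟨N, mdl_of_facts L g (fun g X t => L.conj_c g X t) (fun a X t => L.c_smul a X t) D hD1 hD3
    R hf.1 hf.2.1 hf.2.2⟩

end Pool.Agent.TH554.PN
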